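import Pool.Agent.Helper70.BI.HH.StHD

/-! # Project BI stage 7, module GRD (helper95): iterated bisection -/

set_option autoImplicit false

open scoped Topology unitInterval Manifold ContDiff
open Set Pool.Agent.Helper65.Barb Pool.Agent.Helper18.BI
open Pool.Agent.Helper34.S5 (zc Gc nm Off)

namespace Pool.Agent.Helper70.HH

private theorem grd_hl0 : hl 0 = 0 := by
  apply Subtype.ext
  simp [hl]

private theorem grd_hr1 : hr 1 = 1 := by
  apply Subtype.ext
  simp [hr]

private theorem grd_mid : hl 1 = hr 0 := by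
  apply Subtype.ext
  simp [hl, hr]

section

variable {X : Type} [TopologicalSpace X]

private def GQx (C : C(I × (I × I), X)) (c : I) (h h' : C(I, I)) : C(I × I, X) :=
  ⟨fun z => C (c, (h z.1, h' z.2)), by fun_prop⟩
private def GQy (C : C(I × (I × I), X)) (c : I) (h h' : C(I, I)) : C(I × I, X) :=
  ⟨fun z => C (h z.1, (c, h' z.2)), by fun_prop⟩
private def GQz (C : C(I × (I × I), X)) (c : I) (h h' : C(I, I)) : C(I × I, X) :=
  ⟨fun z => C (h z.1, (h' z.2, c)), by fun_prop⟩

private theorem grd_fx (C : C(I × (I × I), X)) (c : I) :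
    lowT (lowS (C.comp (fx c))) = GQx C c hl hl ∧ upT (lowS (C.comp (fx c))) = GQx C c hl hr ∧
    lowT (upS (C.comp (fx c))) = GQx C c hr hl ∧ upT (upS (C.comp (fx c))) = GQx C c hr hr :=
  ⟨rfl, rfl, rfl, rfl⟩

private theorem grd_fy (C : C(I × (I × I), X)) (c : I) :
    lowT (lowS (C.comp (fy c))) = GQy C c hl hl ∧ upT (lowS (C.comp (fy c))) = GQy C c hl hr ∧
    lowT (upS (C.comp (fy c))) = GQy C c hr hl ∧ upT (upS (C.comp (fy c))) = GQy C c hr hr :=
  ⟨rfl, rfl, rfl, rfl⟩

private theorem grd_fz (C : C(I × (I × I), X)) (c : I) :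
    lowT (lowS (C.comp (fz c))) = GQz C c hl hl ∧ upT (lowS (C.comp (fz c))) = GQz C c hl hr ∧
    lowT (upS (C.comp (fz c))) = GQz C c hr hl ∧ upT (upS (C.comp (fz c))) = GQz C c hr hr :=
  ⟨rfl, rfl, rfl, rfl⟩

private theorem grd_sub (C : C(I × (I × I), X)) (c : I) (h h' h'' : C(I, I)) :
    (sub8 h h' h'' C).comp (fx c) = GQx C (h c) h' h'' ∧
    (sub8 h h' h'' C).comp (fy c) = GQy C (h' c) h h'' ∧
    (sub8 h h' h'' C).comp (fz c) = GQz C (h'' c) h h' :=
  ⟨rfl, rfl, rfl⟩

private theorem grd_one {V : Type} [AddCommGroup V] (g : C(I × I, X) → V)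
    (P : C(I × (I × I), X) → Prop) (hP : ∀ C, P C → dC g C = 0) :
    ∀ (k : ℕ) (C : C(I × (I × I), X)), AllSub P k C → dC (sumS g k) C = 0 := by
  intro k
  induction k with
  | zero => intro C hC; exact hP C hC
  | succ k ih =>
    intro C hC
    have key : ∀ h h' h'' : C(I, I), (h = hl ∨ h = hr) → (h' = hl ∨ h' = hr) →
        (h'' = hl ∨ h'' = hr) →
        sumS g k (GQx C (h 1) h' h'') - sumS g k (GQx C (h 0) h' h'') -
          (sumS g k (GQy C (h' 1) h h'') - sumS g k (GQy C (h' 0) h h'')) +
          (sumS g k (GQz C (h'' 1) h h') - sumS g k (GQz C (h'' 0) h h')) = 0 := by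
      intro h h' h'' e e' e''
      exact ih _ (hC h h' h'' e e' e'')
    have k1 := key hl hl hl (Or.inl rfl) (Or.inl rfl) (Or.inl rfl)
    have k2 := key hl hl hr (Or.inl rfl) (Or.inl rfl) (Or.inr rfl)
    have k3 := key hl hr hl (Or.inl rfl) (Or.inr rfl) (Or.inl rfl)
    have k4 := key hl hr hr (Or.inl rfl) (Or.inr rfl) (Or.inr rfl)
    have k5 := key hr hl hl (Or.inr rfl) (Or.inl rfl) (Or.inl rfl)
    have k6 := key hr hl hr (Or.inr rfl) (Or.inl rfl) (Or.inr rfl)
    have k7 := key hr hr hl (Or.inr rfl) (Or.inr rfl) (Or.inl rfl)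
    have k8 := key hr hr hr (Or.inr rfl) (Or.inr rfl) (Or.inr rfl)
    rw [grd_hl0, grd_mid] at k1 k2 k3 k4
    rw [grd_hr1] at k5 k6 k7 k8
    rw [grd_hr1] at k2 k3 k4
    rw [grd_hl0, grd_mid] at k5 k6 k7
    have hs : ∀ S : C(I × I, X), sumS g (k + 1) S = sumS g k (lowT (lowS S)) +
        sumS g k (upT (lowS S)) + sumS g k (lowT (upS S)) + sumS g k (upT (upS S)) := fun S => rfl
    unfold dC
    rw [hs, hs, hs, hs, hs, hs]
    simp only [grd_fx, grd_fy, grd_fz]
    have hsum := congrArg₂ (· + ·) (congrArg₂ (· + ·) (congrArg₂ (· + ·) k1 k2)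
      (congrArg₂ (· + ·) k3 k4)) (congrArg₂ (· + ·) (congrArg₂ (· + ·) k5 k6)
      (congrArg₂ (· + ·) k7 k8))
    simp only [add_zero] at hsum
    rw [← hsum]
    abel

private theorem grd_two {V : Type} [AddCommGroup V] (a : C(I × I, X) → V) (v : C(I, X) → V)
    (ha : IsCoc X V a v) : ∀ (k : ℕ) (S : C(I × I, X)),
      a S = sumS a k S + bisE v k (S.comp topm) - bisE v k (S.comp botm) +
        bisE v k (S.comp lefm) - bisE v k (S.comp rigm) := by
  intro k
  induction k with
  | zero => intro S; simp [sumS, bisE]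
  | succ k ih =>
    intro S
    have h1 := ha.sdh S
    have h2 := ha.sdv (lowS S)
    have h3 := ha.sdv (upS S)
    have e1 : (lowS S).comp lefm = S.comp lefm := by
      ext y
      change S (hl 0, y) = S (0, y)
      rw [grd_hl0]
    have e2 : (upS S).comp rigm = S.comp rigm := by
      ext y
      change S (hr 1, y) = S (1, y)
      rw [grd_hr1]
    have e3 : (lowS S).comp rigm = (upS S).comp lefm := by
      ext y
      change S (hl 1, y) = S (hr 0, y)
      rw [grd_mid]
    rw [e1, e3] at h2
    rw [e2] at h3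
    have q1 := ih (lowT (lowS S))
    have q2 := ih (upT (lowS S))
    have q3 := ih (lowT (upS S))
    have q4 := ih (upT (upS S))
    have b1 : (lowT (lowS S)).comp botm = (S.comp botm).comp hl := by
      ext x
      change S (hl x, hl 0) = S (hl x, 0)
      rw [grd_hl0]
    have b2 : (upT (lowS S)).comp topm = (S.comp topm).comp hl := by
      ext x
      change S (hl x, hr 1) = S (hl x, 1)
      rw [grd_hr1]
    have b3 : (lowT (lowS S)).comp topm = (upT (lowS S)).comp botm := by
      ext x
      change S (hl x, hl 1) = S (hl x, hr 0)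
      rw [grd_mid]
    have b4 : (lowT (upS S)).comp botm = (S.comp botm).comp hr := by
      ext x
      change S (hr x, hl 0) = S (hr x, 0)
      rw [grd_hl0]
    have b5 : (upT (upS S)).comp topm = (S.comp topm).comp hr := by
      ext x
      change S (hr x, hr 1) = S (hr x, 1)
      rw [grd_hr1]
    have b6 : (lowT (upS S)).comp topm = (upT (upS S)).comp botm := by
      ext x
      change S (hr x, hl 1) = S (hr x, hr 0)
      rw [grd_mid]
    have c1 : (lowT (lowS S)).comp lefm = (S.comp lefm).comp hl := by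
      ext x
      change S (hl 0, hl x) = S (0, hl x)
      rw [grd_hl0]
    have c2 : (upT (lowS S)).comp lefm = (S.comp lefm).comp hr := by
      ext x
      change S (hl 0, hr x) = S (0, hr x)
      rw [grd_hl0]
    have c3 : (lowT (lowS S)).comp rigm = (lowT (upS S)).comp lefm := by
      ext x
      change S (hl 1, hl x) = S (hr 0, hl x)
      rw [grd_mid]
    have c4 : (upT (lowS S)).comp rigm = (upT (upS S)).comp lefm := by
      ext x
      change S (hl 1, hr x) = S (hr 0, hr x)
      rw [grd_mid]
    have c5 : (lowT (upS S)).comp rigm = (S.comp rigm).comp hl := by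
      ext x
      change S (hr 1, hl x) = S (1, hl x)
      rw [grd_hr1]
    have c6 : (upT (upS S)).comp rigm = (S.comp rigm).comp hr := by
      ext x
      change S (hr 1, hr x) = S (1, hr x)
      rw [grd_hr1]
    rw [b1, b3, c1, c3] at q1
    rw [b2, c2, c4] at q2
    rw [b4, b6, c5] at q3
    rw [b5, c6] at q4
    have hs : sumS a (k + 1) S = sumS a k (lowT (lowS S)) +
        sumS a k (upT (lowS S)) + sumS a k (lowT (upS S)) + sumS a k (upT (upS S)) := rfl
    have hb : ∀ e : C(I, X), bisE v (k + 1) e = v e + bisE v k (e.comp hl) +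
        bisE v k (e.comp hr) := fun e => rfl
    rw [hs, hb, hb, hb, hb, h1, h2, h3, q1, q2, q3, q4]
    abel

private theorem grd_three {V : Type} [AddCommGroup V] (u : C(I, X) → V) : ∀ (k : ℕ)
    (S : C(I × I, X)),
      sumS (fun S => u (S.comp botm) + u (S.comp rigm) - u (S.comp lefm) - u (S.comp topm)) k S =
        sumE u k (S.comp botm) + sumE u k (S.comp rigm) - sumE u k (S.comp lefm) -
          sumE u k (S.comp topm) := by
  intro k
  induction k with
  | zero => intro S; rfl
  | succ k ih =>
    intro S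
    have q1 := ih (lowT (lowS S))
    have q2 := ih (upT (lowS S))
    have q3 := ih (lowT (upS S))
    have q4 := ih (upT (upS S))
    have b1 : (lowT (lowS S)).comp botm = (S.comp botm).comp hl := by
      ext x
      change S (hl x, hl 0) = S (hl x, 0)
      rw [grd_hl0]
    have b2 : (upT (lowS S)).comp topm = (S.comp topm).comp hl := by
      ext x
      change S (hl x, hr 1) = S (hl x, 1)
      rw [grd_hr1]
    have b3 : (lowT (lowS S)).comp topm = (upT (lowS S)).comp botm := by
      ext x
      change S (hl x, hl 1) = S (hl x, hr 0)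
      rw [grd_mid]
    have b4 : (lowT (upS S)).comp botm = (S.comp botm).comp hr := by
      ext x
      change S (hr x, hl 0) = S (hr x, 0)
      rw [grd_hl0]
    have b5 : (upT (upS S)).comp topm = (S.comp topm).comp hr := by
      ext x
      change S (hr x, hr 1) = S (hr x, 1)
      rw [grd_hr1]
    have b6 : (lowT (upS S)).comp topm = (upT (upS S)).comp botm := by
      ext x
      change S (hr x, hl 1) = S (hr x, hr 0)
      rw [grd_mid]
    have c1 : (lowT (lowS S)).comp lefm = (S.comp lefm).comp hl := by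
      ext x
      change S (hl 0, hl x) = S (0, hl x)
      rw [grd_hl0]
    have c2 : (upT (lowS S)).comp lefm = (S.comp lefm).comp hr := by
      ext x
      change S (hl 0, hr x) = S (0, hr x)
      rw [grd_hl0]
    have c3 : (lowT (lowS S)).comp rigm = (lowT (upS S)).comp lefm := by
      ext x
      change S (hl 1, hl x) = S (hr 0, hl x)
      rw [grd_mid]
    have c4 : (upT (lowS S)).comp rigm = (upT (upS S)).comp lefm := by
      ext x
      change S (hl 1, hr x) = S (hr 0, hr x)
      rw [grd_mid]
    have c5 : (lowT (upS S)).comp rigm = (S.comp rigm).comp hl := by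
      ext x
      change S (hr 1, hl x) = S (1, hl x)
      rw [grd_hr1]
    have c6 : (upT (upS S)).comp rigm = (S.comp rigm).comp hr := by
      ext x
      change S (hr 1, hr x) = S (1, hr x)
      rw [grd_hr1]
    rw [b1, b3, c1, c3] at q1
    rw [b2, c2, c4] at q2
    rw [b4, b6, c5] at q3
    rw [b5, c6] at q4
    have hb : ∀ e : C(I, X), sumE u (k + 1) e = sumE u k (e.comp hl) +
        sumE u k (e.comp hr) := fun e => rfl
    rw [hb, hb, hb, hb]
    change sumS _ k (lowT (lowS S)) + sumS _ k (upT (lowS S)) + sumS _ k (lowT (upS S)) +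
      sumS _ k (upT (upS S)) = _
    rw [q1, q2, q3, q4]
    abel

end

private theorem grd_distI (a b : I) : dist a b ≤ 1 := by
  rw [Subtype.dist_eq, Real.dist_eq, abs_le]
  constructor
  · linarith [a.2.1, b.2.2]
  · linarith [a.2.2, b.2.1]

private theorem grd_half (h : C(I, I)) (hh : h = hl ∨ h = hr) (a b : I) :
    dist (h a) (h b) = dist a b / 2 := by
  have key : |((a : ℝ) - b) / 2| = |(a : ℝ) - b| / 2 := by
    rw [abs_div, abs_of_pos (by norm_num : (0 : ℝ) < 2)]
  rcases hh with rfl | rfl
  · rw [Subtype.dist_eq, Subtype.dist_eq, Real.dist_eq, Real.dist_eq, ← key]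
    congr 1
    change (a : ℝ) / 2 - (b : ℝ) / 2 = _
    ring
  · rw [Subtype.dist_eq, Subtype.dist_eq, Real.dist_eq, Real.dist_eq, ← key]
    congr 1
    change (1 + (a : ℝ)) / 2 - (1 + (b : ℝ)) / 2 = _
    ring

private theorem grd_four (K N : Set R4) (hK : IsClosed K) (hN : IsOpen N) (hKN : K ⊆ N)
    (C : C(I × (I × I), R4)) : ∃ k : ℕ,
    AllSub (fun C => (∀ z, C z ∉ K) ∨ ∀ z, C z ∈ N) k C := by
  have hcpt : IsCompact (Set.range C) := isCompact_range C.continuous
  obtain ⟨l, hl0, hl⟩ := lebesgue_number_lemma_of_metric (s := Set.range C)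
    (c := fun b : Bool => if b then Kᶜ else N) hcpt
    (by intro b; cases b <;> simp [hN, hK.isOpen_compl])
    (by
      intro x _
      rw [Set.mem_iUnion]
      by_cases hx : x ∈ K
      · exact ⟨false, by simpa using hKN hx⟩
      · exact ⟨true, by simpa using hx⟩)
  have huc : UniformContinuous C := CompactSpace.uniformContinuous_of_continuous C.continuous
  obtain ⟨d, hd0, hd⟩ := Metric.uniformContinuous_iff.1 huc l hl0
  have key : ∀ (k : ℕ) (C' : C(I × (I × I), R4)) (d' : ℝ), (∀ z, C' z ∈ Set.range C) →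
      (∀ z z', dist z z' < d' → dist (C' z) (C' z') < l) → 1 < 2 ^ k * d' →
      AllSub (fun C => (∀ z, C z ∉ K) ∨ ∀ z, C z ∈ N) k C' := by
    intro k
    induction k with
    | zero =>
      intro C' d' hr hm h1
      have h1' : 1 < d' := by simpa using h1
      obtain ⟨b, hb⟩ := hl (C' (0, (0, 0))) (hr _)
      have hall : ∀ z, C' z ∈ (if b then Kᶜ else N : Set R4) := by
        intro z
        apply hb
        rw [Metric.mem_ball]
        apply hm
        refine lt_of_le_of_lt ?_ h1'
        rw [Prod.dist_eq, Prod.dist_eq]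
        exact max_le (grd_distI _ _) (max_le (grd_distI _ _) (grd_distI _ _))
      cases b
      · right
        intro z
        simpa using hall z
      · left
        intro z
        simpa using hall z
    | succ k ih =>
      intro C' d' hr hm h1 h h' h'' e e' e''
      apply ih _ (2 * d')
      · intro z
        exact hr _
      · intro z z' hz
        apply hm
        rw [Prod.dist_eq, Prod.dist_eq] at hz ⊢
        rw [max_lt_iff, max_lt_iff] at hz ⊢
        obtain ⟨z1, z2, z3⟩ := hz
        refine ⟨?_, ?_, ?_⟩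
        · change dist (h z.1) (h z'.1) < d'
          rw [grd_half h e]
          linarith
        · change dist (h' z.2.1) (h' z'.2.1) < d'
          rw [grd_half h' e']
          linarith
        · change dist (h'' z.2.2) (h'' z'.2.2) < d'
          rw [grd_half h'' e'']
          linarith
      · calc (1 : ℝ) < 2 ^ (k + 1) * d' := h1
          _ = 2 ^ k * (2 * d') := by ring
  obtain ⟨k, hk⟩ := pow_unbounded_of_one_lt (1 / d) (by norm_num : (1 : ℝ) < 2)
  refine ⟨k, key k C d (fun z => ⟨z, rfl⟩) (fun z z' hz => hd hz) ?_⟩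
  rw [div_lt_iff₀ hd0] at hk
  exact hk

theorem m_GRD : StGRD := by
  refine ⟨?_, ?_, ?_, ?_⟩
  · intro X V _ _ g P hP k C hC
    exact grd_one g P hP k C hC
  · intro X V _ _ a v ha k S
    exact grd_two a v ha k S
  · intro X V _ _ u k S
    exact grd_three u k S
  · intro K N hK hN hKN C
    exact grd_four K N hK hN hKN C

end Pool.Agent.Helper70.HH
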